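import Pool.Agent.J4.H50.Herm.Dense

/-!
MP_ef2672_gt: sublattices and projections of dense lattices. Lattices with Hermite invariant at
least `n / (2 π e)` (or near to the optimum), their sublattices (semistability), and their
projections along sublattices (which have vectors shorter than the minimum of the lattice).
-/

open Filter Matrix
open scoped Topology

namespace Pool.Agent.Results.MP_ef2672_gt.DenseLatticesStable

open Pool.Agent.H160R3.Herm Pool.Agent.R834.HA Pool.Agent.J4.H50.Herm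

theorem result :
    -- (1) the exact inequalities: sublattices, sublattices and the dual lattice, projections
    (∀ (n : ℕ) (A : Matrix (Fin n) (Fin n) ℝ), A.det ≠ 0 → ∀ a b : ℕ, a + b = n →
      ∀ B : Matrix (Fin n) (Fin a) ℤ, Indep B →
        minSq A ^ a ≤ hermite a ^ a * (gramOf A B).det ∧
        minSq (A⁻¹)ᵀ ^ b * A.det ^ 2 ≤ hermite b ^ b * (gramOf A B).det ∧
        ∀ μ : ℝ, 0 ≤ μ → (∀ (w : Fin n → ℤ) (s : Fin a → ℝ),
          (∀ s', (fun j => (w j : ℝ)) ≠ (B.map (fun z : ℤ => (z : ℝ))).mulVec s') →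
            μ ≤ ∑ i, (A.mulVec ((fun j => (w j : ℝ)) -
              (B.map (fun z : ℤ => (z : ℝ))).mulVec s)) i ^ 2) →
          minSq A ^ a * μ ^ b ≤ hermite a ^ a * hermite b ^ b * A.det ^ 2) ∧
    -- (2) lattices at least as dense as the Minkowski–Hlawka bound: all sublattices
    (∀ c : ℝ, 0 ≤ c → c < Real.pi / (2 * Real.exp 1) → ∃ m0 n0 : ℕ, ∀ n ≥ n0,
      ∀ A : Matrix (Fin n) (Fin n) ℝ, A.det ≠ 0 →
        n / (2 * Real.pi * Real.exp 1) ≤ inv A → AlmostStable A c m0) ∧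
    -- (3) if the dual lattice is dense as well, the lattice is stable
    (∃ n0 : ℕ, ∀ n ≥ n0, ∀ A : Matrix (Fin n) (Fin n) ℝ, A.det ≠ 0 →
      n / (2 * Real.pi * Real.exp 1) ≤ inv A → n / (2 * Real.pi * Real.exp 1) ≤ inv (A⁻¹)ᵀ →
        Stable A) ∧
    -- (4) all projections
    (∀ ε : ℝ, 0 < ε → ∃ n0 : ℕ, ∀ n ≥ n0, ∀ A : Matrix (Fin n) (Fin n) ℝ, A.det ≠ 0 →
      n / (2 * Real.pi * Real.exp 1) ≤ inv A →
        NearVectors A (Real.log (2 * Real.exp 1 / Real.pi) + ε)) ∧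
    (∃ n0 : ℕ, ∀ n ≥ n0, ∀ A : Matrix (Fin n) (Fin n) ℝ, A.det ≠ 0 →
      n / (2 * Real.pi * Real.exp 1) ≤ inv A →
      ∀ a : ℕ, 2 * a = n → ∀ B : Matrix (Fin n) (Fin a) ℤ, Indep B →
        ∃ (w : Fin n → ℤ) (s : Fin a → ℝ),
          (∀ s', (fun j => (w j : ℝ)) ≠ (B.map (fun z : ℤ => (z : ℝ))).mulVec s') ∧
          ∑ i, (A.mulVec ((fun j => (w j : ℝ)) - (B.map (fun z : ℤ => (z : ℝ))).mulVec s)) i ^ 2 ≤
            3 / 4 * minSq A) ∧
    -- (5) the same for lattices with `inv A ≥ t n`, in terms of `limsup γ_n / n`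
    ((∀ t c : ℝ, 0 < t → 0 ≤ c → c * upper < t → ∃ m0 n0 : ℕ, ∀ n ≥ n0,
        ∀ A : Matrix (Fin n) (Fin n) ℝ, A.det ≠ 0 → t * n ≤ inv A → AlmostStable A c m0) ∧
      (∀ t t' : ℝ, 0 < t → 0 < t' → upper < t + t' → ∃ n0 : ℕ, ∀ n ≥ n0,
        ∀ A : Matrix (Fin n) (Fin n) ℝ, A.det ≠ 0 → t * n ≤ inv A → t' * n ≤ inv (A⁻¹)ᵀ →
          Stable A) ∧
      (∀ ε t : ℝ, 0 < ε → 0 < t → ∃ n0 : ℕ, ∀ n ≥ n0, ∀ A : Matrix (Fin n) (Fin n) ℝ,
        A.det ≠ 0 → t * n ≤ inv A → NearVectors A (Real.log (upper / t) + ε))) ∧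
    -- (6) if the limit exists: near-optimal lattices
    ((∃ l : ℝ, Tendsto (fun n : ℕ => hermite n / n) atTop (𝓝 l)) →
      ∀ δ : ℝ, 0 < δ → δ < 1 → ∃ (η : ℝ) (m0 n0 : ℕ), 0 < η ∧ ∀ n ≥ n0,
        ∀ A : Matrix (Fin n) (Fin n) ℝ, A.det ≠ 0 → (1 - η) * hermite n ≤ inv A →
          AlmostStable A (1 - δ) m0 ∧ NearVectors A δ ∧ (δ * n ≤ inv (A⁻¹)ᵀ → Stable A) ∧
          ∀ (m : ℕ) (B : Matrix (Fin n) (Fin m) ℤ), 0 < m → Indep B →
            (1 - δ) ^ m * |A.det| ^ (2 * m / n : ℝ) ≤ (gramOf A B).det) := by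
  refine ⟨fun n A hA a b hab B hB => exact_ineq hA hab hB, fun c hc hc' => dense_stab hc hc',
    dense_stable, fun ε hε => dense_near hε, dense_half, ⟨?_, ?_, ?_⟩, ?_⟩
  · exact fun t c ht hc hct => stab ht hc hct
  · intro t t' ht ht' h
    obtain ⟨n0, h1⟩ := stable ht ht' h
    exact ⟨n0, fun n hn A hA hAt hAt' m B hB => h1 n hn A hA hAt hAt' m B hB⟩
  · exact fun ε t hε ht => nearVectors hε ht
  · rintro ⟨l, hl⟩ δ hδ hδ1
    exact limit_all hl hδ hδ1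

end Pool.Agent.Results.MP_ef2672_gt.DenseLatticesStable
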