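import Pool.Agent.J4.H52.VR.Fin

/-!
# MP_ef2672_gt: Hermite's constant for lattices with few Voronoi-relevant vectors

For a lattice `L = A ℤⁿ` with minimum `λ₁` let `γ(L) = λ₁² / det(L)^(2/n)`. A nonzero vector `v` of `L`
is Voronoi-relevant if `0` and `v` are the only vectors of `L` nearest to the midpoint `v/2`; these
vectors correspond to the facets of the Voronoi cell. There are at least `2n` and at most
`2 (2ⁿ - 1)` of them. Let `γ_n(F)` be the supremum of `γ(L)` over the lattices of rank `n` with at most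
`F` Voronoi-relevant vectors, so that `γ_n(F) = γ_n` for `F ≥ 2 (2ⁿ - 1)`.

* In every dimension `n`, for all `2n ≤ F ≤ 2^(n+1)`, the order of `γ_n(F)` is `log (2F/n)`.
* Hence `γ_n(F_n) / n → 0` if `F_n` grows subexponentially: the limit of Q1 exists for these lattices.
* `γ_n(F) / n ≤ (2/(πe)) (1 - K⁻²) + o(1)` for `F ≤ Kⁿ`. For `K = 2/√3` this is the believed value
  `1/(2πe)` of the limit of `γ_n / n`: lattices above it have at least `(2/√3 - o(1))ⁿ`
  relevant vectors of length at most `(2 + o(1)) λ₁`.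
-/

open Filter
open scoped Topology

namespace Pool.Agent.Results.MP_ef2672_gt.FewRelevantVectors

/-- squared length of the vector `A w` of the lattice `A ℤⁿ` -/
noncomputable def sqLen {n : ℕ} (A : Matrix (Fin n) (Fin n) ℝ) (w : Fin n → ℤ) : ℝ :=
  ∑ i, (Matrix.mulVec A (fun j => (w j : ℝ))) i ^ 2

/-- least squared length `λ₁²` of a nonzero vector of the lattice `A ℤⁿ` -/
noncomputable def minSq {n : ℕ} (A : Matrix (Fin n) (Fin n) ℝ) : ℝ :=
  ⨅ w : {w : Fin n → ℤ // w ≠ 0}, sqLen A w.1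

/-- the Hermite invariant `γ(L) = λ₁² / det(L)^(2/n)` of `L = A ℤⁿ` -/
noncomputable def hermiteInv {n : ℕ} (A : Matrix (Fin n) (Fin n) ℝ) : ℝ :=
  minSq A / |A.det| ^ ((2 : ℝ) / (n : ℝ))

/-- Hermite's constant `γ_n` -/
noncomputable def hermite (n : ℕ) : ℝ :=
  ⨆ A : {A : Matrix (Fin n) (Fin n) ℝ // A.det ≠ 0}, hermiteInv A.1

/-- the Voronoi-relevant vectors of `A ℤⁿ` in coordinates: `v ≠ 0`, and the midpoint `v/2` is nearer
to `0` (and `v`) than to all other vectors `u` of the lattice, `|v/2| < |v/2 - u|` -/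
def relevant {n : ℕ} (A : Matrix (Fin n) (Fin n) ℝ) : Set (Fin n → ℤ) :=
  {v | v ≠ 0 ∧ ∀ u : Fin n → ℤ, u ≠ 0 → u ≠ v → sqLen A v < sqLen A (v - 2 • u)}

/-- the Voronoi-relevant vectors of squared length less than `c` -/
def shortRelevant {n : ℕ} (A : Matrix (Fin n) (Fin n) ℝ) (c : ℝ) : Set (Fin n → ℤ) :=
  {v | v ∈ relevant A ∧ sqLen A v < c}

/-- `γ_n(F)`: the supremum of the Hermite invariants of the lattices of rank `n` with at most `F`
Voronoi-relevant vectors -/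
noncomputable def hermiteFew (n F : ℕ) : ℝ :=
  sSup {g | ∃ A : Matrix (Fin n) (Fin n) ℝ, A.det ≠ 0 ∧ (relevant A).encard ≤ F ∧ hermiteInv A = g}

theorem result :
    -- `γ_n(F)` has the order of `log (2F/n)`, for all `n` and all `F`
    (∀ n F : ℕ, 0 < n → 2 * n ≤ F → F ≤ 2 ^ (n + 1) →
      Real.log (2 * F / n) / 600 ≤ hermiteFew n F ∧ hermiteFew n F ≤ 7 * Real.log (2 * F / n)) ∧
    -- all lattices
    (∀ n F : ℕ, 0 < n → 2 * (2 ^ n - 1) ≤ F → hermiteFew n F = hermite n) ∧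
    -- subexponentially many relevant vectors
    (∀ F : ℕ → ℕ, (∀ᶠ n in atTop, 0 < F n) →
      Tendsto (fun n : ℕ => Real.log (F n) / n) atTop (𝓝 0) →
      Tendsto (fun n : ℕ => hermiteFew n (F n) / n) atTop (𝓝 0)) ∧
    -- exponentially many relevant vectors
    (∀ K ε : ℝ, 1 ≤ K → 0 < ε → ∀ᶠ n : ℕ in atTop, ∀ F : ℕ, (F : ℝ) ≤ K ^ n →
      hermiteFew n F / n ≤ 2 / (Real.pi * Real.exp 1) * (1 - (K ^ 2)⁻¹) + ε) ∧
    -- the inequality in dimension `n`, with short relevant vectors only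
    (∀ n : ℕ, 0 < n → ∀ A : Matrix (Fin n) (Fin n) ℝ, A.det ≠ 0 → ∀ N : ℕ,
      N = (shortRelevant A (2 * n / (Real.pi * Real.exp 1) * (6 * n : ℝ) ^ ((2 : ℝ) / n) *
        |A.det| ^ ((2 : ℝ) / n))).ncard →
      0 < N ∧ hermiteInv A / n ≤ 2 / (Real.pi * Real.exp 1) * (6 * n : ℝ) ^ ((2 : ℝ) / n) *
        (1 - (2 * N : ℝ) ^ (-(2 : ℝ) / n))) ∧
    -- lattices with `γ(L) ≥ θ n`
    (∀ θ K ε : ℝ, 0 < θ → 0 < K → K ^ 2 * (1 - Real.pi * Real.exp 1 / 2 * θ) < 1 → 0 < ε →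
      ∀ᶠ n : ℕ in atTop, ∀ A : Matrix (Fin n) (Fin n) ℝ, A.det ≠ 0 → θ * n ≤ hermiteInv A →
        K ^ n ≤
          ((shortRelevant A ((2 / (Real.pi * Real.exp 1 * θ) + ε) * minSq A)).ncard : ℝ)) ∧
    -- lattices above the believed limit
    (∀ K ε : ℝ, 0 < K → K < 2 / √3 → 0 < ε → ∀ᶠ n : ℕ in atTop,
      ∀ A : Matrix (Fin n) (Fin n) ℝ, A.det ≠ 0 → n / (2 * Real.pi * Real.exp 1) ≤ hermiteInv A →
        K ^ n ≤ ((shortRelevant A ((2 + ε) ^ 2 * minSq A)).ncard : ℝ)) := by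
  refine ⟨fun n F hn h1 h2 => ⟨Pool.Agent.J4.H52.VR.hermiteV_lower hn h1 h2,
      Pool.Agent.J4.H52.VR.hermiteV_upper hn h1⟩,
    fun n F hn hF => Pool.Agent.J4.H52.VR.hermiteV_eq hn hF,
    fun F h0 h => Pool.Agent.J4.H52.VR.hermiteV_subexp h0 h,
    fun K ε hK hε => Pool.Agent.J4.H52.VR.hermiteV_upper_ev hK hε, ?_,
    fun θ K ε hθ hK h hε => Pool.Agent.J4.H52.VR.dense_ev hθ hK h hε, ?_⟩
  · intro n hn A hA N hN
    subst hN
    exact Pool.Agent.J4.H52.VR.inv_le hn hA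
  · intro K ε hK hK2 hε
    have hpe : 0 < Real.pi * Real.exp 1 := by positivity
    set θ : ℝ := 1 / (2 * (Real.pi * Real.exp 1)) with hθ
    have hθ0 : 0 < θ := by positivity
    have h1 : Real.pi * Real.exp 1 / 2 * θ = 1 / 4 := by
      rw [hθ]
      field_simp
      norm_num
    have hs : 0 < √(3 : ℝ) := by positivity
    have hK3 : K ^ 2 < 4 / 3 := by
      have h2 : K ^ 2 < (2 / √3) ^ 2 := pow_lt_pow_left₀ hK2 hK.le two_ne_zero
      rw [div_pow, Real.sq_sqrt (by norm_num)] at h2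
      linarith
    have h3 : K ^ 2 * (1 - Real.pi * Real.exp 1 / 2 * θ) < 1 := by
      rw [h1]
      linarith
    have h4 : 2 / (Real.pi * Real.exp 1 * θ) = 4 := by
      rw [hθ]
      field_simp
      norm_num
    have h5 := Pool.Agent.J4.H52.VR.dense_ev hθ0 hK h3 (ε := ε) hε
    rw [h4] at h5
    filter_upwards [h5] with n hn A hA hinv
    refine (hn A hA (le_trans (le_of_eq ?_) hinv)).trans ?_
    · rw [hθ]
      field_simp
    · have hsub : Pool.Agent.J4.H52.VR.relShort A ((4 + ε) * Pool.Agent.H160R3.Herm.minSq A) ⊆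
          shortRelevant A ((2 + ε) ^ 2 * minSq A) := by
        rintro v ⟨hv1, hv2⟩
        refine ⟨hv1, lt_of_lt_of_le hv2 ?_⟩
        have h6 : 0 ≤ minSq A := Pool.Agent.H160R3.Herm.minSq_nonneg A
        have h7 : (4 + ε) * minSq A ≤ (2 + ε) ^ 2 * minSq A :=
          mul_le_mul_of_nonneg_right (by nlinarith) h6
        exact h7
      exact_mod_cast Set.ncard_le_ncard hsub (Pool.Agent.J4.H52.VR.relShort_finite hA _)

end Pool.Agent.Results.MP_ef2672_gt.FewRelevantVectors
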