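import Pool.Agent.J4.H50.Herm.SqSum

/-!
MP_ef2672_gt: exterior and symmetric squares. Lattices with Hermite invariant at least `n / (2 π e)`
(the Minkowski–Hlawka bound), or near to the optimum, have no sublattice of small (even exponential)
index which is an orthogonal sum of exterior and symmetric squares of lattices.
-/

open Filter Matrix
open scoped Topology

namespace Pool.Agent.Results.MP_ef2672_gt.SquaresOfLattices

open Pool.Agent.H160R3.Herm Pool.Agent.R834.HA Pool.Agent.J4.H50.Herm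

theorem result :
    -- (1) the Hermite invariants of exterior and symmetric squares
    (∀ (N : ℕ) (M : Matrix (Fin N) (Fin N) ℝ), M.det ≠ 0 →
      (1 < N → BoundedBy (hermite (N - 1) * hermite N) (ext2 (Mᵀ * M))) ∧
      (0 < N → BoundedBy (2 * hermite N ^ 2) (sym2 (Mᵀ * M)))) ∧
    -- (2) dense lattices and orthogonal sums of exterior squares
    (∀ c : ℝ, 0 < c → c < Real.pi ^ 3 / (4 * Real.exp 1) → ∃ n0 : ℕ, ∀ n ≥ n0,
      ∀ A : Matrix (Fin n) (Fin n) ℝ, A.det ≠ 0 → n / (2 * Real.pi * Real.exp 1) ≤ inv A →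
        ∀ k : ℕ, HasSum A IsExt k → c ^ n ≤ (k : ℝ) ^ 2) ∧
    -- (3) dense lattices and orthogonal sums of exterior and symmetric squares
    (∀ c : ℝ, 0 < c → c < Real.pi ^ 3 / (8 * Real.exp 1) → ∃ n0 : ℕ, ∀ n ≥ n0,
      ∀ A : Matrix (Fin n) (Fin n) ℝ, A.det ≠ 0 → n / (2 * Real.pi * Real.exp 1) ≤ inv A →
        ∀ k : ℕ, HasSum A IsExtOrSym k → c ^ n ≤ (k : ℝ) ^ 2) ∧
    -- (4) lattices with `inv A ≥ t n`, in terms of `limsup γ_n / n`
    (∀ t c : ℝ, 0 < t → 0 < c → ∃ n0 : ℕ, ∀ n ≥ n0,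
      ∀ A : Matrix (Fin n) (Fin n) ℝ, A.det ≠ 0 → t * n ≤ inv A →
        (c * (2 * upper ^ 2) < t → ∀ k : ℕ, HasSum A IsExt k → c ^ n ≤ (k : ℝ) ^ 2) ∧
        (c * (4 * upper ^ 2) < t → ∀ k : ℕ, HasSum A IsExtOrSym k → c ^ n ≤ (k : ℝ) ^ 2)) ∧
    -- (5) if the limit exists: near-optimal lattices
    (∀ L : ℝ, Tendsto (fun n : ℕ => hermite n / n) atTop (𝓝 L) → ∀ c : ℝ, 0 < c →
      ∃ (η : ℝ) (n0 : ℕ), 0 < η ∧ ∀ n ≥ n0, ∀ A : Matrix (Fin n) (Fin n) ℝ, A.det ≠ 0 →
        (1 - η) * hermite n ≤ inv A →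
          (c < 1 / (2 * L) → ∀ k : ℕ, HasSum A IsExt k → c ^ n ≤ (k : ℝ) ^ 2) ∧
          (c < 1 / (4 * L) → ∀ k : ℕ, HasSum A IsExtOrSym k → c ^ n ≤ (k : ℝ) ^ 2)) := by
  refine ⟨fun N M hM => ⟨fun hN => ext_bound hN hM, fun hN => sym_bound hN hM⟩, ?_, ?_, ?_, ?_⟩
  · intro c hc hc'
    exact square_dense (a := 2) (by norm_num) (fun U hU => good_ext hU) hc
      (by convert! hc' using 2; ring)
  · intro c hc hc'
    exact square_dense (a := 4) (by norm_num) (fun U hU => good_square hU) hc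
      (by convert! hc' using 2; ring)
  · intro t c ht hc
    by_cases h1 : c * (2 * upper ^ 2) < t
    · obtain ⟨n1, h2⟩ := square_asym (a := 2) (by norm_num) (fun U hU => good_ext hU) ht hc h1
      by_cases h3 : c * (4 * upper ^ 2) < t
      · obtain ⟨n2, h4⟩ := square_asym (a := 4) (by norm_num) (fun U hU => good_square hU) ht hc h3
        exact ⟨n1 + n2, fun n hn A hA hAt =>
          ⟨fun _ => h2 n (by omega) A hA hAt, fun _ => h4 n (by omega) A hA hAt⟩⟩
      · exact ⟨n1, fun n hn A hA hAt =>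
          ⟨fun _ => h2 n (by omega) A hA hAt, fun h => absurd h h3⟩⟩
    · refine ⟨0, fun n _ A _ _ => ⟨fun h => absurd h h1, fun h => absurd (lt_of_le_of_lt ?_ h) h1⟩⟩
      have := sq_nonneg upper
      nlinarith
  · intro L hL c hc
    have hLpos : 0 < L := by
      have h := upper_pos
      have hu : upper = L := hL.limsup_eq
      rwa [hu] at h
    by_cases h1 : c < 1 / (2 * L)
    · rw [lt_div_iff₀ (by positivity)] at h1
      obtain ⟨η1, n1, hη1, h2⟩ := square_limit (a := 2) (by norm_num)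
        (fun U hU => good_ext hU) hL hc h1
      by_cases h3 : c < 1 / (4 * L)
      · rw [lt_div_iff₀ (by positivity)] at h3
        obtain ⟨η2, n2, hη2, h4⟩ := square_limit (a := 4) (by norm_num)
          (fun U hU => good_square hU) hL hc h3
        refine ⟨min η1 η2, n1 + n2 + 1, lt_min hη1 hη2, fun n hn A hA hAη => ?_⟩
        have hg := hermite_pos (n := n) (by omega)
        have e1 : (1 - η1) * hermite n ≤ inv A :=
          (mul_le_mul_of_nonneg_right (by linarith [min_le_left η1 η2]) hg.le).trans hAη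
        have e2 : (1 - η2) * hermite n ≤ inv A :=
          (mul_le_mul_of_nonneg_right (by linarith [min_le_right η1 η2]) hg.le).trans hAη
        exact ⟨fun _ => h2 n (by omega) A hA e1, fun _ => h4 n (by omega) A hA e2⟩
      · exact ⟨η1, n1, hη1, fun n hn A hA hAη =>
          ⟨fun _ => h2 n hn A hA hAη, fun h => absurd h h3⟩⟩
    · refine ⟨1, 0, one_pos, fun n _ A _ _ =>
        ⟨fun h => absurd h h1, fun h => absurd (h.trans_le ?_) h1⟩⟩
      apply one_div_le_one_div_of_le (by positivity)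
      linarith

end Pool.Agent.Results.MP_ef2672_gt.SquaresOfLattices
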