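import Pool.Agent.J4.H50.Herm.TensorAsym

/-!
MP_ef2672_gt: tensor products. Lattices with Hermite invariant at least `n / (2 π e)` (the
Minkowski–Hlawka bound), or near to the optimum, have no sublattice of small (even exponential)
index which is an orthogonal sum of tensor products of lattices.
-/

open Filter Matrix
open scoped Topology

namespace Pool.Agent.Results.MP_ef2672_gt.TensorProducts

open Pool.Agent.H160R3.Herm Pool.Agent.R834.HA Pool.Agent.J4.H50.Herm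

/-- dense lattices of dimension at least `n0`: the index `k` of a sublattice which is an orthogonal
sum of tensor products of lattices of ranks `m i`, `l i` satisfies `P n k`, if the ranks satisfy
`R` -/
def Dense (R : ∀ r : ℕ, (Fin r → ℕ) → (Fin r → ℕ) → Prop) (P : ℕ → ℕ → Prop) : Prop :=
  ∃ n0 : ℕ, ∀ n ≥ n0, ∀ A : Matrix (Fin n) (Fin n) ℝ, A.det ≠ 0 →
    n / (2 * Real.pi * Real.exp 1) ≤ inv A →
    ∀ (r : ℕ) (m l : Fin r → ℕ) (k : ℕ), HasTensorSum A m l k → R r m l → P n k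

theorem result :
    -- (1) the exact inequality
    (∀ n : ℕ, 0 < n → ∀ A : Matrix (Fin n) (Fin n) ℝ, A.det ≠ 0 →
      ∀ (r : ℕ) (m l : Fin r → ℕ) (k : ℕ), HasTensorSum A m l k →
        inv A ^ n ≤ (k : ℝ) ^ 2 * ∏ i, (hermite (m i) * hermite (l i)) ^ (m i * l i)) ∧
    -- (2) all ranks at least 2
    Dense (fun _ m l => ∀ i, 2 ≤ m i ∧ 2 ≤ l i) (fun n k => Real.exp (n / 2500) ≤ k) ∧
    -- (3) all ranks at least 3
    Dense (fun _ m l => ∀ i, 3 ≤ m i ∧ 3 ≤ l i) (fun n k => Real.exp (n / 8) ≤ k) ∧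
    -- (4) all ranks large
    (∀ c : ℝ, 0 < c → c < Real.pi ^ 3 / (2 * Real.exp 1) → ∃ N : ℕ,
      Dense (fun _ m l => ∀ i, N ≤ m i ∧ N ≤ l i) (fun n k => c ^ n ≤ (k : ℝ) ^ 2)) ∧
    -- (5) lattices with `inv A ≥ t n`, in terms of `limsup γ_n / n`
    (∀ t x U : ℝ, 0 < t → 0 < x → upper < U → ∃ n0 : ℕ, ∀ n ≥ n0,
      ∀ A : Matrix (Fin n) (Fin n) ℝ, A.det ≠ 0 → t * n ≤ inv A →
      ∀ (r : ℕ) (m l : Fin r → ℕ) (k : ℕ), HasTensorSum A m l k → Factors m l x →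
        (t * x / U) ^ n ≤ (k : ℝ) ^ 2) ∧
    -- (6) if the limit exists: near-optimal lattices
    ((∃ L : ℝ, Tendsto (fun n : ℕ => hermite n / n) atTop (𝓝 L)) → ∀ δ x : ℝ, 0 < δ → δ < 1 →
      0 < x → ∃ (η : ℝ) (n0 : ℕ), 0 < η ∧ ∀ n ≥ n0,
        ∀ A : Matrix (Fin n) (Fin n) ℝ, A.det ≠ 0 → (1 - η) * hermite n ≤ inv A →
        ∀ (r : ℕ) (m l : Fin r → ℕ) (k : ℕ), HasTensorSum A m l k → Factors m l x →
          ((1 - δ) * x) ^ n ≤ (k : ℝ) ^ 2) ∧
    -- (7) the constants: `√3 γ_d ≤ d` for `d ≥ 2` and `(9/4) γ_d ≤ d` for `d ≥ 3`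
    (∀ (r : ℕ) (m l : Fin r → ℕ),
      ((∀ i, 2 ≤ m i ∧ 2 ≤ l i) → Factors m l √3) ∧
      ((∀ i, 3 ≤ m i ∧ 3 ≤ l i) → Factors m l (9 / 4))) := by
  refine ⟨fun n hn A hA r m l k hT => (tensor_ineq hn hA hT).2.2, ?_, ?_, ?_,
    fun t x U ht hx hU => tensor_general ht hx hU, ?_,
    fun r m l => ⟨factors_two, factors_three⟩⟩
  · exact dense_tensor_two
  · exact dense_tensor_three
  · intro c hc hc'
    have hpi := Real.pi_pos
    have he := Real.exp_pos 1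
    have hup := upper_pos
    have h1 : c * upper ^ 2 < 1 / (2 * Real.pi * Real.exp 1) := by
      have h2 : upper ^ 2 ≤ (1 / Real.pi ^ 2) ^ 2 := pow_le_pow_left₀ hup.le upper_le 2
      calc c * upper ^ 2 ≤ c * (1 / Real.pi ^ 2) ^ 2 := mul_le_mul_of_nonneg_left h2 hc.le
        _ < Real.pi ^ 3 / (2 * Real.exp 1) * (1 / Real.pi ^ 2) ^ 2 :=
            mul_lt_mul_of_pos_right hc' (by positivity)
        _ = _ := by field_simp
    obtain ⟨N, n0, h⟩ := tensor_large (by positivity) hc h1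
    refine ⟨N, n0, fun n hn A hA hAt r m l k hT hR => h n hn A hA ?_ r m l k hT hR⟩
    rw [one_div_mul_eq_div]
    exact hAt
  · rintro ⟨L, hL⟩ δ x hδ hδ1 hx
    exact tensor_limit hL hδ hδ1 hx

end Pool.Agent.Results.MP_ef2672_gt.TensorProducts
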